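import Pool.Agent.H207.TP.Stm

/-!
# Linearity and surjectivity of `rev`
-/

set_option autoImplicit false

open Polynomial

namespace Pool.Agent.H277.TP207

open Pool.Agent.H207.TP

theorem t_RLI : S_RLI := by
  refine ⟨?_, ?_, ?_, ?_⟩
  · intro m b F G
    unfold rev
    rw [add_comp, reflect_add]
  · intro m b s F
    unfold rev
    rw [mul_comp, C_comp, reflect_C_mul]
  · intro m b G hG
    refine ⟨(G.reflect m).comp (X - C b), ?_, ?_⟩
    · rw [natDegree_comp, natDegree_X_sub_C, mul_one]
      exact (natDegree_reflect_le).trans (max_le le_rfl hG)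
    · unfold rev
      rw [comp_assoc]
      have : (X - C b : ℂ[X]).comp (X + C b) = X := by
        simp
      rw [this, comp_X]
      ext i
      rw [coeff_reflect, coeff_reflect, revAt_invol]
  · intro m b i
    unfold rev
    rw [pow_comp, X_comp]

end Pool.Agent.H277.TP207
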